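import Mathlib
import Pool.Agent.K3h68.HE.Main

/-!
# MP_797cb5_co: common edges are not always kept by shortest parallel-flip paths

There are a set `S` of sixteen points of the plane, no three on a line, and two triangulations
`T`, `T'` of `S` such that every shortest parallel-flip path from `T` to `T'` has an intermediate
triangulation that misses an edge common to `T` and `T'`.

The points form a double chain: a lower chain `l₀, …, l₆` and an upper chain `u₀, …, u₆`, both
bending towards each other, a point `A` to the right and a point `p` to the left, so that the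
polygon `l₀ … l₆ A u₆ … u₀ p` has all diagonals `lᵢuⱼ`, `lᵢA`, `uⱼA`, `lᵢp`, `uⱼp`, `pA` and no
other ones.  In `T` the point `u₀` is joined to all `lᵢ` and `A` to all `uⱼ`; in `T'` the point `l₀`
is joined to all `uⱼ` and `A` to all `lᵢ`.  Both contain the edge `e = l₀u₀`, which separates `p`
from the rest; outside the polygon they agree.

* There is a path of length eleven (it uses `p`).
* Let the common edges be kept.  Let `lᵢ` and `uⱼ` be the leftmost points of the two chains that
  are joined to `A`.  Then `A lᵢ uⱼ` is a triangle, and each parallel flip changes only one of `i`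
  and `j`, by at most one (every other change would flip two edges of one triangle).  So at least
  `6 + 6 = 12` parallel flips are needed to get from `(i, j) = (6, 0)` to `(0, 6)`.
-/

set_option autoImplicit false

open Pool.Agent.K3h68.HE

namespace Pool.Agent.Results.MP_797cb5_co.HappyEdgesFail

/-- the points of `S` are in general position: no three of them are collinear -/
def GeneralPosition (S : Finset Pt) : Prop :=
  ∀ a ∈ S, ∀ b ∈ S, ∀ c ∈ S, a ≠ b → b ≠ c → a ≠ c → ¬ Collinear ℝ ({a, b, c} : Set Pt)

theorem sa_of_collinear {a b c : Pt} (h : Collinear ℝ ({a, b, c} : Set Pt)) : sa a b c = 0 := by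
  rw [collinear_iff_of_mem (p₀ := a) (by simp)] at h
  obtain ⟨v, hv⟩ := h
  obtain ⟨r, hr⟩ := hv b (by simp)
  obtain ⟨s, hs⟩ := hv c (by simp)
  rw [hr, hs]
  unfold sa
  simp only [vadd_eq_add, Prod.fst_add, Prod.snd_add, Prod.smul_fst, Prod.smul_snd, smul_eq_mul]
  ring

theorem gp16 : GeneralPosition S16 := by
  intro a ha b hb c hc hab hbc hac hcol
  obtain ⟨i, rfl⟩ := mem_S16.mp ha
  obtain ⟨j, rfl⟩ := mem_S16.mp hb
  obtain ⟨k, rfl⟩ := mem_S16.mp hc
  have h1 := sa_of_collinear hcol
  rw [sa_pt] at h1
  have h2 : ori i j k = 0 := by exact_mod_cast h1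
  exact gp i j k (fun h => hab (by rw [h])) (fun h => hbc (by rw [h]))
    (fun h => hac (by rw [h])) h2

theorem card16 : S16.card = 16 := by
  unfold S16
  rw [Finset.card_image_of_injective _ (fun i j h => pt_inj h)]
  rfl

/-- **Common edges cannot always be kept.** There are a set `S` of sixteen points in general
position in the plane and triangulations `T`, `T'` of `S` such that (there are shortest
parallel-flip paths from `T` to `T'`, and) every shortest parallel-flip path from `T` to `T'` has an
intermediate triangulation that misses an edge common to `T` and `T'`. -/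
theorem result : ∃ (S : Finset Pt) (T T' : Set (Sym2 Pt)),
    S.card = 16 ∧ GeneralPosition S ∧ IsTriangulation S T ∧ IsTriangulation S T' ∧
    (∃ (l : ℕ) (P : ℕ → Set (Sym2 Pt)), IsShortest S T T' l P) ∧
    ∀ (l : ℕ) (P : ℕ → Set (Sym2 Pt)), IsShortest S T T' l P →
      ∃ i, 0 < i ∧ i < l ∧ ∃ e ∈ T ∩ T', e ∉ P i :=
  ⟨S16, TL (LL 0), TL (LL 11), card16, gp16, main_ex.1, main_ex.2.1, main_ex.2.2.1,
    main_ex.2.2.2⟩

end Pool.Agent.Results.MP_797cb5_co.HappyEdgesFail
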